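import Pool.Agent.Esc405.M7

/-! Sums as contour integrals over rectangles with a cotangent kernel. -/

set_option autoImplicit false

namespace Q162.KN

open Complex MeasureTheory
open Esc405 (rectInt rect_cauchy h400_congr)

/-- residue at a simple zero of the denominator -/
lemma rect_quot {x₀ x₁ y₀ y₁ : ℝ} {v₀ : ℂ} (h1 : x₀ < v₀.re) (h2 : v₀.re < x₁)
    (h3 : y₀ < v₀.im) (h4 : v₀.im < y₁) {P g : ℂ → ℂ}
    (hP : ∀ v : ℂ, x₀ ≤ v.re → v.re ≤ x₁ → y₀ ≤ v.im → v.im ≤ y₁ → DifferentiableAt ℂ P v)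
    (hg : Differentiable ℂ g) (hg0 : g v₀ = 0)
    (hinj : ∀ v : ℂ, x₀ ≤ v.re → v.re ≤ x₁ → y₀ ≤ v.im → v.im ≤ y₁ → g v = 0 → v = v₀)
    (h0 : deriv g v₀ ≠ 0) :
    rectInt (fun v => P v / g v) x₀ x₁ y₀ y₁ = 2 * Real.pi * I * (P v₀ / deriv g v₀) := by
  have hds : Differentiable ℂ (dslope g v₀) := by
    have h := (Complex.differentiableOn_dslope (f := g) (c := v₀) (s := Set.univ)
      Filter.univ_mem).mpr hg.differentiableOn
    exact differentiableOn_univ.mp h
  have hne : ∀ v : ℂ, x₀ ≤ v.re → v.re ≤ x₁ → y₀ ≤ v.im → v.im ≤ y₁ → dslope g v₀ v ≠ 0 := by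
    intro v a b c d
    by_cases hv : v = v₀
    · rw [hv, dslope_same]
      exact h0
    · rw [dslope_of_ne _ hv, slope_def_field, hg0, sub_zero]
      exact div_ne_zero (fun h => hv (hinj v a b c d h)) (sub_ne_zero.mpr hv)
  have h := rect_cauchy h1 h2 h3 h4 (Ψ := fun v => P v / dslope g v₀ v) (by
    intro v a b c d
    exact (hP v a b c d).div (hds v) (hne v a b c d))
  rw [dslope_same] at h
  rw [← h]
  apply h400_congr h1 h2 h3 h4
  intro v a b c d hv
  have h5 : v - v₀ ≠ 0 := sub_ne_zero.mpr hv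
  have h6 : g v ≠ 0 := fun h => hv (hinj v a b c d h)
  rw [dslope_of_ne _ hv, slope_def_field, hg0, sub_zero]
  field_simp

/-- adjacent rectangles -/
lemma rect_add {f : ℂ → ℂ} {x₀ x₁ x₂ y₀ y₁ : ℝ}
    (a1 : IntervalIntegrable (fun x : ℝ => f (x + y₀ * I)) volume x₀ x₁)
    (a2 : IntervalIntegrable (fun x : ℝ => f (x + y₀ * I)) volume x₁ x₂)
    (b1 : IntervalIntegrable (fun x : ℝ => f (x + y₁ * I)) volume x₀ x₁)
    (b2 : IntervalIntegrable (fun x : ℝ => f (x + y₁ * I)) volume x₁ x₂) :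
    rectInt f x₀ x₂ y₀ y₁ = rectInt f x₀ x₁ y₀ y₁ + rectInt f x₁ x₂ y₀ y₁ := by
  unfold rectInt
  rw [← intervalIntegral.integral_add_adjacent_intervals a1 a2,
    ← intervalIntegral.integral_add_adjacent_intervals b1 b2]
  ring

/-- the angle -/
noncomputable def ang (s h : ℝ) (v : ℂ) : ℂ := Real.pi * (v - s) / h

/-- the cotangent kernel with residue `1` at the points `s + k h` -/
noncomputable def ck (s h : ℝ) (v : ℂ) : ℂ := Real.pi / h * (cos (ang s h v) / sin (ang s h v))

lemma ang_im (s h : ℝ) (v : ℂ) : (ang s h v).im = Real.pi * v.im / h := by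
  unfold ang
  rw [Complex.div_ofReal_im, Complex.im_ofReal_mul]
  simp

lemma ang_add {s h : ℝ} (hh : 0 < h) (v : ℂ) (n : ℤ) :
    ang s h (v + n * h) = ang s h v + n * Real.pi := by
  have : (h : ℂ) ≠ 0 := by exact_mod_cast hh.ne'
  unfold ang
  field_simp
  ring

/-- `cos (n π)` -/
lemma sgn_pi (n : ℤ) : ‖cos (n * Real.pi)‖ = 1 := by
  have h1 : cos ((n : ℂ) * Real.pi) = ((Real.cos (n * Real.pi) : ℝ) : ℂ) := by push_cast; rfl
  rw [h1, Complex.norm_real, Real.norm_eq_abs, Real.abs_cos_int_mul_pi]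

lemma sgn_ne (n : ℤ) : cos (n * Real.pi) ≠ 0 := by
  intro h
  have := sgn_pi n
  rw [h, norm_zero] at this
  exact zero_ne_one this

lemma sin_shift (z : ℂ) (n : ℤ) : sin (z + n * Real.pi) = cos (n * Real.pi) * sin z := by
  rw [Complex.sin_add, Complex.sin_int_mul_pi]
  ring

lemma cos_shift (z : ℂ) (n : ℤ) : cos (z + n * Real.pi) = cos (n * Real.pi) * cos z := by
  rw [Complex.cos_add, Complex.sin_int_mul_pi]
  ring

lemma ck_add {s h : ℝ} (hh : 0 < h) (v : ℂ) (n : ℤ) : ck s h (v + n * h) = ck s h v := by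
  unfold ck
  rw [ang_add hh, sin_shift, cos_shift, mul_div_mul_left _ _ (sgn_ne n)]

lemma sin_ang_zero {s h : ℝ} (hh : 0 < h) {v : ℂ} (hv : sin (ang s h v) = 0) :
    ∃ n : ℤ, v = s + n * h := by
  obtain ⟨n, hn⟩ := Complex.sin_eq_zero_iff.1 hv
  refine ⟨n, ?_⟩
  have hh' : (h : ℂ) ≠ 0 := by exact_mod_cast hh.ne'
  have hp : (Real.pi : ℂ) ≠ 0 := by exact_mod_cast Real.pi_ne_zero
  unfold ang at hn
  rw [div_eq_iff hh'] at hn
  have h2 : (Real.pi : ℂ) * (v - s) = Real.pi * (n * h) := by rw [hn]; ring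
  have h3 := mul_left_cancel₀ hp h2
  rw [← h3]
  ring

lemma sin_ang_ne {s h : ℝ} (hh : 0 < h) {v : ℂ} (hv : v.im ≠ 0) : sin (ang s h v) ≠ 0 := by
  intro h0
  obtain ⟨n, hn⟩ := sin_ang_zero hh h0
  apply hv
  rw [hn]
  simp

lemma diff_ang (s h : ℝ) : Differentiable ℂ (ang s h) := by
  unfold ang
  fun_prop

lemma cont_ck {s h : ℝ} {v : ℂ} (hv : sin (ang s h v) ≠ 0) : ContinuousAt (ck s h) v := by
  have h1 := (diff_ang s h v).continuousAt
  have h2 : ContinuousAt (fun v => cos (ang s h v)) v :=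
    ContinuousAt.comp Complex.continuous_cos.continuousAt h1
  have h3 : ContinuousAt (fun v => sin (ang s h v)) v :=
    ContinuousAt.comp Complex.continuous_sin.continuousAt h1
  exact continuousAt_const.mul (h2.div h3 hv)

lemma one_rect {s h Y : ℝ} (hh : 0 < h) (hY : 0 < Y) (k : ℤ) {F : ℂ → ℂ}
    (hF : ∀ v : ℂ, s + k * h - h / 2 ≤ v.re → v.re ≤ s + k * h + h / 2 → -Y ≤ v.im → v.im ≤ Y →
      DifferentiableAt ℂ F v) :
    rectInt (fun v => F v * ck s h v) (s + k * h - h / 2) (s + k * h + h / 2) (-Y) Y =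
      2 * Real.pi * I * F (s + k * h) := by
  have hh' : (h : ℂ) ≠ 0 := by exact_mod_cast hh.ne'
  have hp : (Real.pi : ℂ) ≠ 0 := by exact_mod_cast Real.pi_ne_zero
  set v₀ : ℂ := s + k * h with hv₀
  have hre : v₀.re = s + k * h := by simp [hv₀]
  have him : v₀.im = 0 := by simp [hv₀]
  have hg : ∀ v : ℂ, HasDerivAt (fun v => (h : ℂ) / Real.pi * sin (ang s h v)) (cos (ang s h v)) v := by
    intro v
    have h1 : HasDerivAt (ang s h) (Real.pi / h) v := by
      have := (((hasDerivAt_id v).sub_const (s : ℂ)).const_mul (Real.pi : ℂ)).div_const (h : ℂ)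
      rw [mul_one] at this
      exact this
    have h2 := (h1.csin).const_mul ((h : ℂ) / Real.pi)
    refine h2.congr_deriv ?_
    field_simp
  have hang : ang s h v₀ = k * Real.pi := by
    unfold ang
    rw [hv₀]
    field_simp
    ring
  have hzero : (h : ℂ) / Real.pi * sin (ang s h v₀) = 0 := by
    rw [hang, Complex.sin_int_mul_pi, mul_zero]
  have key := rect_quot (x₀ := s + k * h - h / 2) (x₁ := s + k * h + h / 2) (y₀ := -Y) (y₁ := Y)
    (v₀ := v₀) (by rw [hre]; linarith) (by rw [hre]; linarith) (by rw [him]; linarith)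
    (by rw [him]; linarith) (P := fun v => F v * cos (ang s h v))
    (g := fun v => (h : ℂ) / Real.pi * sin (ang s h v))
    (fun v a b c d => (hF v a b c d).mul ((diff_ang s h v).ccos))
    (fun v => (hg v).differentiableAt) hzero
    (by
      intro v a b c d h0
      have h1 : sin (ang s h v) = 0 := by
        rcases mul_eq_zero.1 h0 with h2 | h2
        · exact absurd h2 (div_ne_zero hh' hp)
        · exact h2
      obtain ⟨n, hn⟩ := sin_ang_zero hh h1
      have h2 : v.re = s + n * h := by rw [hn]; simp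
      rw [h2] at a b
      have h3 : ((k : ℝ) - 1 / 2) * h ≤ n * h := by linarith
      have h4 : (n : ℝ) * h ≤ ((k : ℝ) + 1 / 2) * h := by linarith
      have h5 := le_of_mul_le_mul_right h3 hh
      have h6 := le_of_mul_le_mul_right h4 hh
      have h7 : n = k := by
        have i1 : ((k - 1 : ℤ) : ℝ) < n := by push_cast; linarith
        have i2 : (n : ℝ) < ((k + 1 : ℤ) : ℝ) := by push_cast; linarith
        have i3 : k - 1 < n := by exact_mod_cast i1
        have i4 : n < k + 1 := by exact_mod_cast i2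
        omega
      rw [hn, hv₀, h7])
    (by
      rw [(hg v₀).deriv, hang]
      exact sgn_ne k)
  rw [(hg v₀).deriv] at key
  have e1 : F v₀ * cos (ang s h v₀) / cos (ang s h v₀) = F v₀ := by
    rw [hang]
    exact mul_div_cancel_right₀ _ (sgn_ne k)
  rw [e1] at key
  rw [← key]
  congr 1
  funext v
  unfold ck
  rw [div_mul_eq_mul_div, div_mul_eq_mul_div]
  rw [mul_div_assoc', div_div_eq_mul_div]
  rcases eq_or_ne (sin (ang s h v)) 0 with h0 | h0
  · rw [h0]
    simp
  · field_simp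

lemma hor_int {s h y x₀ x₁ : ℝ} (hh : 0 < h) (hy : y ≠ 0) (hx : x₀ ≤ x₁) {F : ℂ → ℂ}
    (hF : ∀ x : ℝ, x₀ ≤ x → x ≤ x₁ → DifferentiableAt ℂ F (x + y * I)) :
    IntervalIntegrable (fun x : ℝ => F (x + y * I) * ck s h (x + y * I)) volume x₀ x₁ := by
  apply ContinuousOn.intervalIntegrable
  intro x hx'
  rw [Set.uIcc_of_le hx] at hx'
  apply ContinuousAt.continuousWithinAt
  have h1 : ContinuousAt (fun x : ℝ => (x : ℂ) + y * I) x := by fun_prop
  have h2 : ContinuousAt (fun v => F v * ck s h v) ((x : ℂ) + y * I) :=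
    (hF x hx'.1 hx'.2).continuousAt.mul (cont_ck (sin_ang_ne hh (by simpa using hy)))
  exact ContinuousAt.comp (f := fun x : ℝ => (x : ℂ) + y * I) (g := fun v => F v * ck s h v) h2 h1

/-- a sum as a contour integral -/
lemma sum_rect {s h Y : ℝ} (hh : 0 < h) (hY : 0 < Y) (m : ℕ) {F : ℂ → ℂ}
    (hF : ∀ v : ℂ, s - h / 2 ≤ v.re → v.re ≤ s + m * h - h / 2 → -Y ≤ v.im → v.im ≤ Y →
      DifferentiableAt ℂ F v) :
    rectInt (fun v => F v * ck s h v) (s - h / 2) (s + m * h - h / 2) (-Y) Y =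
      2 * Real.pi * I * ∑ k ∈ Finset.range m, F (s + k * h) := by
  induction m with
  | zero =>
    simp [rectInt]
  | succ m ih =>
    have hm : (0 : ℝ) ≤ m * h := by positivity
    have hF1 := ih fun v a b c d => hF v a (by push_cast; linarith) c d
    have hF2 := one_rect (s := s) hh hY (m : ℤ) (F := F) (fun v a b c d => hF v
      (by push_cast at a; linarith) (by push_cast at b ⊢; linarith) c d)
    push_cast at hF2
    have e1 : s + (m : ℝ) * h + h / 2 = s + ((m + 1 : ℕ) : ℝ) * h - h / 2 := by push_cast; ring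
    rw [e1] at hF2
    rw [Finset.sum_range_succ, mul_add, ← hF1, ← hF2]
    have hint : ∀ y : ℝ, y ≠ 0 → -Y ≤ y → y ≤ Y →
        IntervalIntegrable (fun x : ℝ => F (x + y * I) * ck s h (x + y * I)) volume
          (s - h / 2) (s + m * h - h / 2) ∧
        IntervalIntegrable (fun x : ℝ => F (x + y * I) * ck s h (x + y * I)) volume
          (s + m * h - h / 2) (s + ((m + 1 : ℕ) : ℝ) * h - h / 2) := by
      intro y hy hy1 hy2
      constructor
      · refine hor_int hh hy (by linarith) fun x hx1 hx2 => hF _ ?_ ?_ ?_ ?_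
        · simpa using hx1
        · simp only [add_re, ofReal_re, mul_re, I_re, mul_zero, ofReal_im, I_im, mul_one,
            sub_self, add_zero]
          push_cast
          linarith
        · simpa using hy1
        · simpa using hy2
      · refine hor_int hh hy (by push_cast; linarith) fun x hx1 hx2 => hF _ ?_ ?_ ?_ ?_
        · simp only [add_re, ofReal_re, mul_re, I_re, mul_zero, ofReal_im, I_im, mul_one,
            sub_self, add_zero]
          linarith
        · simpa using hx2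
        · simpa using hy1
        · simpa using hy2
    exact rect_add (hint (-Y) (by linarith) le_rfl (by linarith)).1
      (hint (-Y) (by linarith) le_rfl (by linarith)).2
      (hint Y hY.ne' (by linarith) le_rfl).1 (hint Y hY.ne' (by linarith) le_rfl).2

/-- the sine is large far from the real line -/
lemma norm_sin_ge (w : ℂ) : (Real.exp w.im - Real.exp (-w.im)) / 2 ≤ ‖sin w‖ ∧
    (Real.exp (-w.im) - Real.exp w.im) / 2 ≤ ‖sin w‖ := by
  have h1 : ‖sin w‖ = ‖exp (-w * I) - exp (w * I)‖ / 2 := by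
    rw [Complex.sin, norm_div, norm_mul, Complex.norm_I, mul_one]
    simp
  have h2 : ‖exp (-w * I)‖ = Real.exp w.im := by
    rw [Complex.norm_exp]
    simp
  have h3 : ‖exp (w * I)‖ = Real.exp (-w.im) := by
    rw [Complex.norm_exp]
    simp
  rw [h1, ← h2, ← h3]
  constructor
  · have := norm_sub_norm_le (exp (-w * I)) (exp (w * I))
    linarith
  · have := norm_sub_norm_le (exp (w * I)) (exp (-w * I))
    rw [norm_sub_rev] at this
    linarith

/-- the cotangent far from the real line -/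
lemma cot_far {w : ℂ} {u : ℝ} (hu : 1 ≤ u) :
    (w.im = -u → ‖cos w / sin w - I‖ ≤ 4 * Real.exp (-(2 * u))) ∧
    (w.im = u → ‖cos w / sin w + I‖ ≤ 4 * Real.exp (-(2 * u))) := by
  have hE : Real.exp (-(2 * u)) ≤ 1 / 2 := by
    have h1 : Real.exp (-(2 * u)) ≤ Real.exp (-1) := Real.exp_le_exp.2 (by linarith)
    have h2 : Real.exp (-1) < 1 / 2 := by
      have := Real.exp_neg_one_lt_d9
      linarith
    linarith
  have hs : ∀ S : ℝ, (Real.exp u - Real.exp (-u)) / 2 ≤ S → 0 < S ∧
      Real.exp (-u) / S ≤ 4 * Real.exp (-(2 * u)) := by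
    intro S hS
    have e1 : Real.exp (-(2 * u)) = Real.exp (-u) * Real.exp (-u) := by
      rw [← Real.exp_add]; congr 1; ring
    have e2 : Real.exp u * Real.exp (-u) = 1 := by rw [← Real.exp_add]; simp
    have e3 := Real.exp_pos u
    have e4 := Real.exp_pos (-u)
    have e5 : Real.exp (-u) ≤ Real.exp u / 2 := by
      by_contra hcon
      push Not at hcon
      have : Real.exp u / 2 * Real.exp (-u) < Real.exp (-u) * Real.exp (-u) :=
        mul_lt_mul_of_pos_right hcon e4
      rw [← e1] at this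
      nlinarith
    have hS1 : Real.exp u / 4 ≤ S := by linarith
    have hS0 : 0 < S := by linarith
    refine ⟨hS0, ?_⟩
    rw [div_le_iff₀ hS0, e1]
    have h6 : Real.exp (-u) * Real.exp (-u) * (Real.exp u / 4) ≤
        Real.exp (-u) * Real.exp (-u) * S := mul_le_mul_of_nonneg_left hS1 (by positivity)
    have h7 : Real.exp (-u) * Real.exp (-u) * (Real.exp u / 4) =
        Real.exp (-u) * (Real.exp u * Real.exp (-u)) / 4 := by ring
    rw [h7, e2] at h6
    linarith
  constructor
  · intro hw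
    obtain ⟨h1, h2⟩ := hs ‖sin w‖ (by
      have := (norm_sin_ge w).2
      rw [hw, neg_neg] at this
      exact this)
    have hne : sin w ≠ 0 := norm_pos_iff.1 h1
    have e : cos w / sin w - I = exp (-(w * I)) / sin w := by
      rw [eq_div_iff hne, sub_mul, div_mul_cancel₀ _ hne, ← neg_mul, Complex.exp_mul_I,
        Complex.cos_neg, Complex.sin_neg]
      ring
    rw [e, norm_div, Complex.norm_exp]
    have : (-(w * I)).re = -u := by
      simp [hw]
    rw [this]
    exact h2
  · intro hw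
    obtain ⟨h1, h2⟩ := hs ‖sin w‖ (by
      have := (norm_sin_ge w).1
      rw [hw] at this
      exact this)
    have hne : sin w ≠ 0 := norm_pos_iff.1 h1
    have e : cos w / sin w + I = exp (w * I) / sin w := by
      rw [eq_div_iff hne, add_mul, div_mul_cancel₀ _ hne, Complex.exp_mul_I]
      ring
    rw [e, norm_div, Complex.norm_exp]
    have : (w * I).re = -u := by
      simp [hw]
    rw [this]
    exact h2

/-- on the vertical lines in the middle between the poles -/
lemma mid_line {s h : ℝ} (hh : 0 < h) (n : ℤ) (y : ℝ) :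
    ‖sin (ang s h (((s + n * h - h / 2 : ℝ) : ℂ) + y * I))‖ = Real.cosh (Real.pi * y / h) ∧
    ‖ck s h (((s + n * h - h / 2 : ℝ) : ℂ) + y * I)‖ ≤ Real.pi / h := by
  have hh' : (h : ℂ) ≠ 0 := by exact_mod_cast hh.ne'
  set u : ℝ := Real.pi * y / h with hu
  have e : ang s h (((s + n * h - h / 2 : ℝ) : ℂ) + y * I) =
      ((u : ℂ) * I - Real.pi / 2) + n * Real.pi := by
    unfold ang
    rw [hu]
    push_cast
    field_simp
    ring
  have hs : sin ((u : ℂ) * I - Real.pi / 2) = -Complex.cosh u := by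
    rw [Complex.sin_sub_pi_div_two, Complex.cos_mul_I]
  have hc : cos ((u : ℂ) * I - Real.pi / 2) = Complex.sinh u * I := by
    rw [Complex.cos_sub_pi_div_two, Complex.sin_mul_I]
  have hs1 : ‖sin (ang s h (((s + n * h - h / 2 : ℝ) : ℂ) + y * I))‖ = Real.cosh u := by
    rw [e, sin_shift, hs, norm_mul, sgn_pi, one_mul, norm_neg, ← Complex.ofReal_cosh,
      Complex.norm_real, Real.norm_eq_abs, abs_of_pos (Real.cosh_pos u)]
  have hc1 : ‖cos (ang s h (((s + n * h - h / 2 : ℝ) : ℂ) + y * I))‖ = |Real.sinh u| := by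
    rw [e, cos_shift, hc, norm_mul, sgn_pi, one_mul, norm_mul, Complex.norm_I, mul_one,
      ← Complex.ofReal_sinh, Complex.norm_real, Real.norm_eq_abs]
  refine ⟨hs1, ?_⟩
  unfold ck
  rw [norm_mul, norm_div, norm_div, hs1, hc1, Complex.norm_real, Complex.norm_real,
    Real.norm_eq_abs, Real.norm_eq_abs, abs_of_pos Real.pi_pos, abs_of_pos hh]
  have h1 : |Real.sinh u| / Real.cosh u ≤ 1 := by
    rw [div_le_one (Real.cosh_pos u)]
    rw [abs_le]
    have h2 : Real.cosh u ^ 2 = Real.sinh u ^ 2 + 1 := by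
      have := Real.cosh_sq u
      linarith
    constructor
    · nlinarith [Real.cosh_pos u]
    · nlinarith [Real.cosh_pos u]
  have h3 : 0 < Real.pi / h := by positivity
  nlinarith

end Q162.KN
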