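import Pool.Agent.Q99.KN.Stm3
import Pool.Agent.Q162.KN.Rect

/-! Job KN-PX: a sum as an integral. -/

set_option autoImplicit false

namespace Q162.KN

open Complex MeasureTheory
open Esc405 (rectInt)
open Pool.Agent.Q99.KN

lemma shift_hor {f : ℂ → ℂ} {x₀ x₁ y₀ y₁ B L : ℝ} (hx : x₀ ≤ x₁) (hy : |y₁ - y₀| ≤ L)
    (hf : ∀ v : ℂ, x₀ ≤ v.re → v.re ≤ x₁ → min y₀ y₁ ≤ v.im → v.im ≤ max y₀ y₁ →
      DifferentiableAt ℂ f v)
    (hB : ∀ t : ℝ, min y₀ y₁ ≤ t → t ≤ max y₀ y₁ → ‖f (x₀ + t * I)‖ ≤ B ∧ ‖f (x₁ + t * I)‖ ≤ B) :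
    ‖(∫ x in x₀..x₁, f (x + y₀ * I)) - ∫ x in x₀..x₁, f (x + y₁ * I)‖ ≤ 2 * B * L := by
  have hB0 : 0 ≤ B := (norm_nonneg _).trans (hB (min y₀ y₁) le_rfl min_le_max).1
  have h := Complex.integral_boundary_rect_eq_zero_of_differentiableOn f
    (x₀ + y₀ * I) (x₁ + y₁ * I) (by
      intro v hv
      simp only [mem_reProdIm, add_re, ofReal_re, mul_re, I_re, mul_zero, ofReal_im, I_im, mul_one,
        sub_self, add_zero, add_im, mul_im, zero_add, Set.uIcc_of_le hx] at hv
      exact (hf v hv.1.1 hv.1.2 hv.2.1 hv.2.2).differentiableWithinAt)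
  simp only [add_re, ofReal_re, mul_re, I_re, mul_zero, ofReal_im, I_im, mul_one,
        sub_self, add_zero, add_im, mul_im, zero_add, smul_eq_mul] at h
  have e1 : ‖∫ y in y₀..y₁, f (x₁ + y * I)‖ ≤ B * |y₁ - y₀| := by
    apply intervalIntegral.norm_integral_le_of_norm_le_const
    intro t ht
    rw [Set.mem_uIoc] at ht
    refine (hB t ?_ ?_).2
    · rcases ht with ht | ht
      · exact (min_le_left _ _).trans ht.1.le
      · exact (min_le_right _ _).trans ht.1.le
    · rcases ht with ht | ht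
      · exact ht.2.trans (le_max_right _ _)
      · exact ht.2.trans (le_max_left _ _)
  have e2 : ‖∫ y in y₀..y₁, f (x₀ + y * I)‖ ≤ B * |y₁ - y₀| := by
    apply intervalIntegral.norm_integral_le_of_norm_le_const
    intro t ht
    rw [Set.mem_uIoc] at ht
    refine (hB t ?_ ?_).1
    · rcases ht with ht | ht
      · exact (min_le_left _ _).trans ht.1.le
      · exact (min_le_right _ _).trans ht.1.le
    · rcases ht with ht | ht
      · exact ht.2.trans (le_max_right _ _)
      · exact ht.2.trans (le_max_left _ _)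
  have e3 : (∫ x in x₀..x₁, f (x + y₀ * I)) - ∫ x in x₀..x₁, f (x + y₁ * I) =
      I * (∫ y in y₀..y₁, f (x₀ + y * I)) - I * ∫ y in y₀..y₁, f (x₁ + y * I) := by
    linear_combination h
  rw [e3]
  refine (norm_sub_le _ _).trans ?_
  rw [norm_mul, norm_mul, Complex.norm_I, one_mul, one_mul]
  have : B * |y₁ - y₀| ≤ B * L := mul_le_mul_of_nonneg_left hy hB0
  linarith

lemma ball_mem {c ρ x y : ℝ} {v : ℂ} (h1 : |v.re - c| ≤ x) (h2 : |v.im| ≤ y) (h3 : x + y < ρ) :
    v ∈ Metric.ball (c : ℂ) ρ := by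
  rw [Metric.mem_ball, dist_eq_norm]
  have := Complex.norm_le_abs_re_add_abs_im (v - c)
  simp only [sub_re, ofReal_re, sub_im, ofReal_im, sub_zero] at this
  linarith

theorem task_PX : S_PX := by
  intro ρ hρ hρ1
  refine ⟨4, ?_⟩
  intro N hN f hf τ η A B hτN hτ hη hA hB
  have hN0 : (0 : ℝ) < N := lt_of_lt_of_le (by positivity) hN
  have hNC : (N : ℂ) ≠ 0 := by exact_mod_cast hN0.ne'
  have hNρ : 16 ≤ ρ * N := by
    rw [div_le_iff₀ hρ] at hN
    linarith
  have hN1 : 1 / (N : ℝ) ≤ ρ / 16 := by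
    rw [div_le_iff₀ hN0]
    linarith
  set a := aN ρ N with ha
  set b := bN ρ N with hb
  have ha1 : (N : ℝ) * (1 / 4 - ρ / 4) ≤ a := Nat.le_ceil _
  have ha2 : (a : ℝ) < N * (1 / 4 - ρ / 4) + 1 :=
    Nat.ceil_lt_add_one (mul_nonneg hN0.le (by linarith))
  have hb1 : (b : ℝ) ≤ N * (1 / 4 + ρ / 4) := Nat.floor_le (mul_nonneg hN0.le (by linarith))
  have hb2 : (N : ℝ) * (1 / 4 + ρ / 4) < b + 1 := Nat.lt_floor_add_one _
  have hab : (a : ℝ) + 1 ≤ b := by nlinarith
  have hab' : a ≤ b := by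
    have : ((a + 1 : ℕ) : ℝ) ≤ b := by push_cast; exact hab
    have := Nat.cast_le.1 this
    omega
  set h : ℝ := 1 / N with hh
  have hh0 : 0 < h := by positivity
  have hNh : (N : ℝ) * h = 1 := by rw [hh]; field_simp
  set s : ℝ := a / N with hs
  set x₀ : ℝ := al ρ N with hx₀
  set x₁ : ℝ := be ρ N with hx₁
  have e0 : x₀ = s - h / 2 := by
    rw [hx₀, hs, hh]
    unfold al
    rw [← ha]
    field_simp
  have e1 : x₁ = s + (b + 1 - a : ℕ) * h - h / 2 := by
    rw [hx₁, hs, hh]
    unfold be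
    rw [← hb]
    push_cast [Nat.cast_sub (show a ≤ b + 1 by omega)]
    field_simp
    ring
  have hx01 : x₀ ≤ x₁ := by
    rw [e0, e1]
    have : (0 : ℝ) ≤ (b + 1 - a : ℕ) * h := by positivity
    linarith
  have hl0 : 1 / 4 - (ρ / 4 + ρ / 32) ≤ x₀ := by
    have h1 : 1 / 4 - ρ / 4 ≤ (a : ℝ) / N := by
      rw [le_div_iff₀ hN0]
      linarith
    rw [e0, hs]
    linarith
  have hl1 : x₁ ≤ 1 / 4 + (ρ / 4 + ρ / 32) := by
    have h1 : (b : ℝ) / N ≤ 1 / 4 + ρ / 4 := by
      rw [div_le_iff₀ hN0]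
      linarith
    have h2 : x₁ = (b : ℝ) / N + h / 2 := by
      rw [hx₁, hh]
      unfold be
      rw [← hb]
      field_simp
    rw [h2]
    linarith
  have hτ0 : 0 < τ := by
    by_contra hcon
    push Not at hcon
    nlinarith
  have hin : ∀ v : ℂ, x₀ ≤ v.re → v.re ≤ x₁ → -τ ≤ v.im → v.im ≤ τ → DifferentiableAt ℂ f v := by
    intro v a1 a2 a3 a4
    have : v ∈ Metric.ball (((1 / 4 : ℝ)) : ℂ) ρ :=
      ball_mem (x := ρ / 4 + ρ / 32) (y := ρ / 2) (abs_le.2 ⟨by linarith, by linarith⟩)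
        (abs_le.2 ⟨by linarith, by linarith⟩) (by linarith)
    rw [show (((1 / 4 : ℝ)) : ℂ) = 1 / 4 by norm_num] at this
    exact hf.differentiableAt (Metric.isOpen_ball.mem_nhds this)
  -- the sum
  have hsum := sum_rect (s := s) (h := h) (Y := τ) hh0 hτ0 (b + 1 - a) (F := f) (by
    rw [← e0, ← e1]
    exact hin)
  rw [← e0, ← e1] at hsum
  have hS : ∑ k ∈ Finset.range (b + 1 - a), f (s + k * h) =
      ∑ y ∈ Finset.Icc a b, f (y / N) := by
    rw [← Finset.Ico_add_one_right_eq_Icc, Finset.sum_Ico_eq_sum_range]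
    refine Finset.sum_congr rfl fun k _ => ?_
    congr 1
    rw [hs, hh]
    push_cast
    field_simp
  rw [hS] at hsum
  set S := ∑ y ∈ Finset.Icc a b, f (y / N) with hSd
  set E : ℝ := Real.exp (-(2 * Real.pi * τ * N)) with hE
  have hE0 : 0 < E := Real.exp_pos _
  have hlen : |x₁ - x₀| ≤ 1 := by
    rw [abs_of_nonneg (by linarith)]
    linarith
  have hA0 : 0 ≤ A := (norm_nonneg _).trans (hA x₀ ⟨le_rfl, hx01⟩).1
  have hB0 : 0 ≤ B := (norm_nonneg _).trans (hB 0 ⟨by linarith, by linarith⟩).1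
  have hpi := Real.pi_pos
  have hu : 1 ≤ Real.pi * τ * N := by
    have h1 : Real.pi * 1 ≤ Real.pi * (τ * N) := mul_le_mul_of_nonneg_left hτN hpi.le
    have := Real.pi_gt_three
    nlinarith
  have hpin : (Real.pi : ℂ) / (h : ℂ) = Real.pi * N := by
    rw [hh]
    push_cast
    field_simp
  have hpin' : Real.pi / h = Real.pi * N := by
    rw [hh]
    field_simp
  -- horizontal sides
  have hlow : ‖(∫ x in x₀..x₁, f (x + (-τ : ℝ) * I) * ck s h (x + (-τ : ℝ) * I)) -
      Real.pi * N * I * ∫ x in x₀..x₁, f (x + (-τ : ℝ) * I)‖ ≤ 4 * Real.pi * N * E * A := by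
    rw [← intervalIntegral.integral_const_mul, ← intervalIntegral.integral_sub
      (hor_int hh0 (neg_ne_zero.2 hτ0.ne') hx01 fun x hx1 hx2 => hin _ (by simpa using hx1)
        (by simpa using hx2) (by simp) (by simp; linarith))
      (by
        refine IntervalIntegrable.const_mul ?_ _
        apply ContinuousOn.intervalIntegrable
        intro x hx'
        rw [Set.uIcc_of_le hx01] at hx'
        apply ContinuousAt.continuousWithinAt
        exact ContinuousAt.comp (f := fun x : ℝ => (x : ℂ) + (-τ : ℝ) * I) (g := f)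
          (hin _ (by simpa using hx'.1) (by simpa using hx'.2) (by simp)
            (by simp; linarith)).continuousAt (by fun_prop))]
    have := intervalIntegral.norm_integral_le_of_norm_le_const (a := x₀) (b := x₁)
      (C := 4 * Real.pi * N * E * A)
      (f := fun x : ℝ => f (x + (-τ : ℝ) * I) * ck s h (x + (-τ : ℝ) * I) -
        Real.pi * N * I * f (x + (-τ : ℝ) * I)) (by
      intro x hx
      rw [Set.uIoc_of_le hx01] at hx
      have h1 : ‖f (x + (-τ : ℝ) * I)‖ ≤ A := by
        have := (hA x ⟨hx.1.le, hx.2⟩).2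
        have e : (x : ℂ) + (-τ : ℝ) * I = x - τ * I := by push_cast; ring
        rw [e]
        exact this
      have h2 : (ang s h ((x : ℂ) + (-τ : ℝ) * I)).im = -(Real.pi * τ * N) := by
        rw [ang_im]
        simp only [add_im, ofReal_im, mul_im, ofReal_re, I_im, mul_one, I_re, mul_zero, add_zero,
          zero_add]
        rw [hh]
        field_simp
      have h3 := (cot_far (w := ang s h ((x : ℂ) + (-τ : ℝ) * I)) hu).1 h2
      have e : f (x + (-τ : ℝ) * I) * ck s h (x + (-τ : ℝ) * I) -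
          Real.pi * N * I * f (x + (-τ : ℝ) * I) = f (x + (-τ : ℝ) * I) * (Real.pi * N *
          (cos (ang s h ((x : ℂ) + (-τ : ℝ) * I)) / sin (ang s h ((x : ℂ) + (-τ : ℝ) * I)) - I)) := by
        unfold ck
        rw [hpin]
        ring
      rw [e, norm_mul, norm_mul, norm_mul, Complex.norm_real, Complex.norm_natCast,
        Real.norm_eq_abs, abs_of_pos hpi]
      have e5 : -(2 * (Real.pi * τ * N)) = -(2 * Real.pi * τ * N) := by ring
      rw [e5, ← hE] at h3
      calc ‖f (x + (-τ : ℝ) * I)‖ * (Real.pi * N * ‖cos (ang s h ((x : ℂ) + (-τ : ℝ) * I)) /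
            sin (ang s h ((x : ℂ) + (-τ : ℝ) * I)) - I‖) ≤ A * (Real.pi * N * (4 * E)) := by
            gcongr
        _ = 4 * Real.pi * N * E * A := by ring)
    refine this.trans ?_
    have h5 : 0 ≤ 4 * Real.pi * N * E * A := by positivity
    nlinarith
  have hup : ‖(∫ x in x₀..x₁, f (x + τ * I) * ck s h (x + τ * I)) +
      Real.pi * N * I * ∫ x in x₀..x₁, f (x + τ * I)‖ ≤ 4 * Real.pi * N * E * A := by
    rw [← intervalIntegral.integral_const_mul, ← intervalIntegral.integral_add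
      (hor_int hh0 hτ0.ne' hx01 fun x hx1 hx2 => hin _ (by simpa using hx1)
        (by simpa using hx2) (by simp; linarith) (by simp))
      (by
        refine IntervalIntegrable.const_mul ?_ _
        apply ContinuousOn.intervalIntegrable
        intro x hx'
        rw [Set.uIcc_of_le hx01] at hx'
        apply ContinuousAt.continuousWithinAt
        exact ContinuousAt.comp (f := fun x : ℝ => (x : ℂ) + τ * I) (g := f)
          (hin _ (by simpa using hx'.1) (by simpa using hx'.2) (by simp; linarith)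
            (by simp)).continuousAt (by fun_prop))]
    have := intervalIntegral.norm_integral_le_of_norm_le_const (a := x₀) (b := x₁)
      (C := 4 * Real.pi * N * E * A)
      (f := fun x : ℝ => f (x + τ * I) * ck s h (x + τ * I) +
        Real.pi * N * I * f (x + τ * I)) (by
      intro x hx
      rw [Set.uIoc_of_le hx01] at hx
      have h1 : ‖f (x + τ * I)‖ ≤ A := (hA x ⟨hx.1.le, hx.2⟩).1
      have h2 : (ang s h ((x : ℂ) + τ * I)).im = Real.pi * τ * N := by
        rw [ang_im]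
        simp only [add_im, ofReal_im, mul_im, ofReal_re, I_im, mul_one, I_re, mul_zero, add_zero,
          zero_add]
        rw [hh]
        field_simp
      have h3 := (cot_far (w := ang s h ((x : ℂ) + τ * I)) hu).2 h2
      have e : f (x + τ * I) * ck s h (x + τ * I) +
          Real.pi * N * I * f (x + τ * I) = f (x + τ * I) * (Real.pi * N *
          (cos (ang s h ((x : ℂ) + τ * I)) / sin (ang s h ((x : ℂ) + τ * I)) + I)) := by
        unfold ck
        rw [hpin]
        ring
      rw [e, norm_mul, norm_mul, norm_mul, Complex.norm_real, Complex.norm_natCast,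
        Real.norm_eq_abs, abs_of_pos hpi]
      have e5 : -(2 * (Real.pi * τ * N)) = -(2 * Real.pi * τ * N) := by ring
      rw [e5, ← hE] at h3
      calc ‖f (x + τ * I)‖ * (Real.pi * N * ‖cos (ang s h ((x : ℂ) + τ * I)) /
            sin (ang s h ((x : ℂ) + τ * I)) + I‖) ≤ A * (Real.pi * N * (4 * E)) := by
            gcongr
        _ = 4 * Real.pi * N * E * A := by ring)
    refine this.trans ?_
    have h5 : 0 ≤ 4 * Real.pi * N * E * A := by positivity
    nlinarith
  -- vertical sides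
  have hver : ∀ n : ℤ, ∀ X : ℝ, X = s + n * h - h / 2 →
      (∀ t ∈ Set.Icc (-τ) τ, ‖f (X + t * I)‖ ≤ B) →
      ‖∫ y in (-τ)..τ, f (X + y * I) * ck s h (X + y * I)‖ ≤ 2 * τ * B * (Real.pi * N) := by
    intro n X hX hf2
    have := intervalIntegral.norm_integral_le_of_norm_le_const (a := -τ) (b := τ)
      (C := B * (Real.pi * N)) (f := fun y : ℝ => f (X + y * I) * ck s h (X + y * I)) (by
      intro t ht
      rw [Set.uIoc_of_le (by linarith)] at ht
      rw [norm_mul]
      have h1 := hf2 t ⟨ht.1.le, ht.2⟩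
      have h2 := (mid_line (s := s) hh0 n t).2
      rw [← hX, hpin'] at h2
      exact mul_le_mul h1 h2 (norm_nonneg _) hB0)
    refine this.trans (le_of_eq ?_)
    rw [abs_of_pos (by linarith)]
    ring
  have hleft := hver 0 x₀ (by rw [e0]; push_cast; ring) fun t ht => (hB t ht).1
  have hright := hver ((b + 1 - a : ℕ) : ℤ) x₁ (by rw [e1]; push_cast; ring) fun t ht => (hB t ht).2
  -- moves
  have hη' := abs_le.1 hη
  have hmin : ∀ y : ℝ, -τ ≤ y → y ≤ τ → ‖(∫ x in x₀..x₁, f (x + y * I)) -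
      ∫ x in x₀..x₁, f (x + η * I)‖ ≤ 2 * B * (2 * τ) := by
    intro y hy1 hy2
    refine shift_hor hx01 (abs_le.2 ⟨by linarith, by linarith⟩) ?_ ?_
    · intro v a1 a2 a3 a4
      refine hin v a1 a2 ?_ ?_
      · exact (le_min hy1 hη'.1).trans a3
      · exact a4.trans (max_le hy2 hη'.2)
    · intro t a3 a4
      exact hB t ⟨(le_min hy1 hη'.1).trans a3, a4.trans (max_le hy2 hη'.2)⟩
  have hm1 := hmin (-τ) le_rfl (by linarith)
  have hm2 := hmin τ (by linarith) le_rfl
  set B0 := ∫ x in x₀..x₁, f (x + (-τ : ℝ) * I) * ck s h (x + (-τ : ℝ) * I) with hB0d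
  set T0 := ∫ x in x₀..x₁, f (x + τ * I) * ck s h (x + τ * I) with hT0d
  set B1 := ∫ x in x₀..x₁, f (x + (-τ : ℝ) * I) with hB1d
  set T1 := ∫ x in x₀..x₁, f (x + τ * I) with hT1d
  set Q := ∫ x in x₀..x₁, f (x + η * I) with hQd
  set L0 := ∫ y in (-τ)..τ, f (x₀ + y * I) * ck s h (x₀ + y * I) with hL0d
  set R0 := ∫ y in (-τ)..τ, f (x₁ + y * I) * ck s h (x₁ + y * I) with hR0d
  have hsum' : B0 - T0 + I * R0 - I * L0 = 2 * Real.pi * I * S := hsum
  have hQX : QX ρ N η f = N * Q := rfl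
  rw [hQX]
  have hpc : (Real.pi : ℂ) ≠ 0 := by exact_mod_cast Real.pi_ne_zero
  have hfin : 2 * Real.pi * I * (S - N * Q) = (B0 - Real.pi * N * I * B1) -
      (T0 + Real.pi * N * I * T1) + I * R0 - I * L0 + Real.pi * N * I * (B1 - Q) +
      Real.pi * N * I * (T1 - Q) := by
    linear_combination -hsum'
  have hn := congrArg norm hfin
  have hn1 : ‖2 * (Real.pi : ℂ) * I * (S - N * Q)‖ = 2 * Real.pi * ‖S - N * Q‖ := by
    rw [norm_mul, norm_mul, norm_mul, Complex.norm_I, Complex.norm_real, Real.norm_eq_abs,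
      abs_of_pos hpi]
    simp
  have hpn : ∀ z : ℂ, ‖(Real.pi : ℂ) * N * I * z‖ = Real.pi * N * ‖z‖ := by
    intro z
    rw [norm_mul, norm_mul, norm_mul, Complex.norm_I, Complex.norm_real, Real.norm_eq_abs,
      abs_of_pos hpi, Complex.norm_natCast]
    ring
  have hIn : ∀ z : ℂ, ‖I * z‖ = ‖z‖ := by
    intro z
    rw [norm_mul, Complex.norm_I, one_mul]
  rw [hn1] at hn
  have hbd : 2 * Real.pi * ‖S - N * Q‖ ≤ 4 * Real.pi * N * E * A + 4 * Real.pi * N * E * A +
      2 * τ * B * (Real.pi * N) + 2 * τ * B * (Real.pi * N) +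
      Real.pi * N * (2 * B * (2 * τ)) + Real.pi * N * (2 * B * (2 * τ)) := by
    rw [hn]
    refine (norm_add_le _ _).trans ?_
    refine add_le_add ((norm_add_le _ _).trans ?_) ?_
    · refine add_le_add ((norm_sub_le _ _).trans ?_) ?_
      · refine add_le_add ((norm_add_le _ _).trans ?_) ?_
        · refine add_le_add ((norm_sub_le _ _).trans (add_le_add hlow hup)) ?_
          rw [hIn]
          exact hright
        · rw [hIn]
          exact hleft
      · rw [hpn]
        exact mul_le_mul_of_nonneg_left hm1 (by positivity)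
    · rw [hpn]
      exact mul_le_mul_of_nonneg_left hm2 (by positivity)
  have h6 : 2 * Real.pi * ‖S - N * Q‖ ≤ 2 * Real.pi * (4 * N * (E * A + B)) := by
    refine hbd.trans ?_
    have h7 : 6 * τ ≤ 1 := by linarith
    have h8 : 0 ≤ Real.pi * N * B * (1 - 6 * τ) := by
      have : 0 ≤ 1 - 6 * τ := by linarith
      positivity
    nlinarith [mul_nonneg (mul_nonneg hpi.le hN0.le) hB0]
  exact le_of_mul_le_mul_left h6 (by positivity)

end Q162.KN
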