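import Pool.Agent.Q99.KN.Stm3
import Pool.Agent.Q162.KN.Rect

/-! Job KN-PZ: a sum of derivatives as an integral. -/

set_option autoImplicit false

namespace Q162.KN

open Complex MeasureTheory
open Esc405 (rectInt)
open Pool.Agent.Q99.KN

/-- the boundary of a rectangle -/
def OnB (x₀ x₁ y₀ y₁ : ℝ) (v : ℂ) : Prop :=
  x₀ ≤ v.re ∧ v.re ≤ x₁ ∧ y₀ ≤ v.im ∧ v.im ≤ y₁ ∧ (v.im = y₀ ∨ v.im = y₁ ∨ v.re = x₀ ∨ v.re = x₁)

section
variable {x₀ x₁ y₀ y₁ : ℝ}

lemma onb_hor {x : ℝ} (hy : y₀ ≤ y₁) (h1 : x₀ ≤ x) (h2 : x ≤ x₁) :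
    OnB x₀ x₁ y₀ y₁ (x + y₀ * I) ∧ OnB x₀ x₁ y₀ y₁ (x + y₁ * I) := by
  refine ⟨⟨by simpa using h1, by simpa using h2, by simp, by simpa using hy, Or.inl (by simp)⟩,
    ⟨by simpa using h1, by simpa using h2, by simpa using hy, by simp, Or.inr (Or.inl (by simp))⟩⟩

lemma onb_ver {y : ℝ} (hx : x₀ ≤ x₁) (h1 : y₀ ≤ y) (h2 : y ≤ y₁) :
    OnB x₀ x₁ y₀ y₁ (x₀ + y * I) ∧ OnB x₀ x₁ y₀ y₁ (x₁ + y * I) := by
  refine ⟨⟨by simp, by simpa using hx, by simpa using h1, by simpa using h2,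
    Or.inr (Or.inr (Or.inl (by simp)))⟩,
    ⟨by simpa using hx, by simp, by simpa using h1, by simpa using h2,
    Or.inr (Or.inr (Or.inr (by simp)))⟩⟩

lemma bd_int {f : ℂ → ℂ} (hx : x₀ ≤ x₁) (hy : y₀ ≤ y₁)
    (hf : ∀ v, OnB x₀ x₁ y₀ y₁ v → ContinuousAt f v) :
    IntervalIntegrable (fun x : ℝ => f (x + y₀ * I)) volume x₀ x₁ ∧
    IntervalIntegrable (fun x : ℝ => f (x + y₁ * I)) volume x₀ x₁ ∧
    IntervalIntegrable (fun y : ℝ => f (x₁ + y * I)) volume y₀ y₁ ∧
    IntervalIntegrable (fun y : ℝ => f (x₀ + y * I)) volume y₀ y₁ := by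
  refine ⟨?_, ?_, ?_, ?_⟩
  · apply ContinuousOn.intervalIntegrable
    intro x hx'
    rw [Set.uIcc_of_le hx] at hx'
    apply ContinuousAt.continuousWithinAt
    exact ContinuousAt.comp (f := fun x : ℝ => (x : ℂ) + y₀ * I) (g := f)
      (hf _ (onb_hor hy hx'.1 hx'.2).1) (by fun_prop)
  · apply ContinuousOn.intervalIntegrable
    intro x hx'
    rw [Set.uIcc_of_le hx] at hx'
    apply ContinuousAt.continuousWithinAt
    exact ContinuousAt.comp (f := fun x : ℝ => (x : ℂ) + y₁ * I) (g := f)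
      (hf _ (onb_hor hy hx'.1 hx'.2).2) (by fun_prop)
  · apply ContinuousOn.intervalIntegrable
    intro y hy'
    rw [Set.uIcc_of_le hy] at hy'
    apply ContinuousAt.continuousWithinAt
    exact ContinuousAt.comp (f := fun y : ℝ => (x₁ : ℂ) + y * I) (g := f)
      (hf _ (onb_ver hx hy'.1 hy'.2).2) (by fun_prop)
  · apply ContinuousOn.intervalIntegrable
    intro y hy'
    rw [Set.uIcc_of_le hy] at hy'
    apply ContinuousAt.continuousWithinAt
    exact ContinuousAt.comp (f := fun y : ℝ => (x₀ : ℂ) + y * I) (g := f)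
      (hf _ (onb_ver hx hy'.1 hy'.2).1) (by fun_prop)

/-- the contour integral of a derivative vanishes -/
lemma rect_deriv {H H' : ℂ → ℂ} (hx : x₀ ≤ x₁) (hy : y₀ ≤ y₁)
    (hd : ∀ v, OnB x₀ x₁ y₀ y₁ v → HasDerivAt H (H' v) v)
    (hc : ∀ v, OnB x₀ x₁ y₀ y₁ v → ContinuousAt H' v) : rectInt H' x₀ x₁ y₀ y₁ = 0 := by
  obtain ⟨i1, i2, i3, i4⟩ := bd_int hx hy hc
  have hor : ∀ y : ℝ, (∀ x ∈ Set.uIcc x₀ x₁, HasDerivAt H (H' (x + y * I)) (x + y * I)) →
      IntervalIntegrable (fun x : ℝ => H' (x + y * I)) volume x₀ x₁ →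
      ∫ x in x₀..x₁, H' (x + y * I) = H (x₁ + y * I) - H (x₀ + y * I) := by
    intro y hyd hyi
    refine intervalIntegral.integral_eq_sub_of_hasDerivAt (f := fun x : ℝ => H (x + y * I)) ?_ hyi
    intro x hx'
    have h1 : HasDerivAt (fun z : ℂ => H (z + y * I)) (H' (x + y * I)) (x : ℂ) :=
      HasDerivAt.comp_add_const (x : ℂ) (y * I) (hyd x hx')
    exact h1.comp_ofReal
  have ver : ∀ x : ℝ, (∀ y ∈ Set.uIcc y₀ y₁, HasDerivAt H (H' (x + y * I)) (x + y * I)) →
      IntervalIntegrable (fun y : ℝ => H' (x + y * I)) volume y₀ y₁ →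
      I * ∫ y in y₀..y₁, H' (x + y * I) = H (x + y₁ * I) - H (x + y₀ * I) := by
    intro x hxd hxi
    rw [← intervalIntegral.integral_const_mul]
    refine intervalIntegral.integral_eq_sub_of_hasDerivAt (f := fun y : ℝ => H (x + y * I)) ?_
      (hxi.const_mul I)
    intro y hy'
    have h0 : HasDerivAt (fun z : ℂ => (x : ℂ) + z * I) I (y : ℂ) := by
      have := ((hasDerivAt_id (y : ℂ)).mul_const I).const_add (x : ℂ)
      rw [one_mul] at this
      exact this
    have h1 : HasDerivAt (fun z : ℂ => H (x + z * I)) (H' (x + y * I) * I) (y : ℂ) :=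
      HasDerivAt.comp (y : ℂ) (h₂ := H) (h := fun z : ℂ => (x : ℂ) + z * I) (hxd y hy') h0
    rw [mul_comm] at h1
    exact h1.comp_ofReal
  unfold rectInt
  rw [hor y₀ (fun x hx' => hd _ (onb_hor hy (by rw [Set.uIcc_of_le hx] at hx'; exact hx'.1)
      (by rw [Set.uIcc_of_le hx] at hx'; exact hx'.2)).1) i1,
    hor y₁ (fun x hx' => hd _ (onb_hor hy (by rw [Set.uIcc_of_le hx] at hx'; exact hx'.1)
      (by rw [Set.uIcc_of_le hx] at hx'; exact hx'.2)).2) i2,
    ver x₁ (fun y hy' => hd _ (onb_ver hx (by rw [Set.uIcc_of_le hy] at hy'; exact hy'.1)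
      (by rw [Set.uIcc_of_le hy] at hy'; exact hy'.2)).2) i3,
    ver x₀ (fun y hy' => hd _ (onb_ver hx (by rw [Set.uIcc_of_le hy] at hy'; exact hy'.1)
      (by rw [Set.uIcc_of_le hy] at hy'; exact hy'.2)).1) i4]
  ring

lemma rect_lin {f g : ℂ → ℂ} (c : ℂ) (hx : x₀ ≤ x₁) (hy : y₀ ≤ y₁)
    (hf : ∀ v, OnB x₀ x₁ y₀ y₁ v → ContinuousAt f v)
    (hg : ∀ v, OnB x₀ x₁ y₀ y₁ v → ContinuousAt g v) :
    rectInt (fun v => f v - c * g v) x₀ x₁ y₀ y₁ = rectInt f x₀ x₁ y₀ y₁ -
      c * rectInt g x₀ x₁ y₀ y₁ := by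
  obtain ⟨f1, f2, f3, f4⟩ := bd_int hx hy hf
  obtain ⟨g1, g2, g3, g4⟩ := bd_int hx hy hg
  unfold rectInt
  rw [intervalIntegral.integral_sub f1 (g1.const_mul c),
    intervalIntegral.integral_sub f2 (g2.const_mul c),
    intervalIntegral.integral_sub f3 (g3.const_mul c),
    intervalIntegral.integral_sub f4 (g4.const_mul c)]
  simp only [intervalIntegral.integral_const_mul]
  ring

end

lemma hasDerivAt_ck {s h : ℝ} {v : ℂ} (hv : sin (ang s h v) ≠ 0) :
    HasDerivAt (ck s h) (-((Real.pi / h) ^ 2 / sin (ang s h v) ^ 2)) v := by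
  have h1 : HasDerivAt (ang s h) (Real.pi / h) v := by
    have := (((hasDerivAt_id v).sub_const (s : ℂ)).const_mul (Real.pi : ℂ)).div_const (h : ℂ)
    rw [mul_one] at this
    exact this
  have h2 := ((h1.ccos).div h1.csin hv).const_mul ((Real.pi : ℂ) / h)
  refine h2.congr_deriv ?_
  have h3 := Complex.sin_sq_add_cos_sq (ang s h v)
  have h4 : -sin (ang s h v) * (Real.pi / h) * sin (ang s h v) -
      cos (ang s h v) * (cos (ang s h v) * (Real.pi / h)) = -((Real.pi : ℂ) / h) := by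
    linear_combination (-((Real.pi : ℂ) / h)) * h3
  rw [h4]
  ring

theorem task_PZ : S_PZ := by
  intro ρ hρ hρ1
  refine ⟨1, ?_⟩
  intro N hN f hf hodd y B hy0 hy hB
  have hN0 : (0 : ℝ) < N := lt_of_lt_of_le (by positivity) hN
  have hNC : (N : ℂ) ≠ 0 := by exact_mod_cast hN0.ne'
  have hNρ : 16 ≤ ρ * N := by
    rw [div_le_iff₀ hρ] at hN
    linarith
  set j := jN ρ N with hj
  have hj1 : (1 - ρ / 4) * N / 2 ≤ j := Nat.le_ceil _
  have hj2 : (j : ℝ) < (1 - ρ / 4) * N / 2 + 1 := by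
    refine Nat.ceil_lt_add_one ?_
    have : 0 ≤ 1 - ρ / 4 := by linarith
    positivity
  have hjj : (2 * j : ℕ) + 2 ≤ N := by
    have : ((2 * j + 2 : ℕ) : ℝ) ≤ N + 1 / 2 := by push_cast; nlinarith
    have h2 : ((2 * j + 2 : ℕ) : ℝ) < ((N + 1 : ℕ) : ℝ) := by push_cast at this ⊢; linarith
    have := Nat.cast_lt.1 h2
    omega
  set θ := th ρ N with hθ
  have hθe : θ = 1 - 2 * j / N := rfl
  have hθ0 : 0 < θ := by
    have h1 : ((2 * j + 2 : ℕ) : ℝ) ≤ N := by exact_mod_cast hjj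
    push_cast at h1
    rw [hθe, sub_pos, div_lt_one hN0]
    linarith
  have hθ1 : θ ≤ ρ / 4 := by
    have h1 : 1 - ρ / 4 ≤ 2 * (j : ℝ) / N := by
      rw [le_div_iff₀ hN0]
      linarith
    rw [hθe]
    linarith
  set h : ℝ := 2 / N with hh
  have hh0 : 0 < h := by positivity
  set s : ℝ := (2 * j + 1 - N) / N with hs
  have e0 : -θ = s - h / 2 := by
    rw [hθe, hs, hh]
    field_simp
    ring
  have e1 : θ = s + (N - j - j : ℕ) * h - h / 2 := by
    rw [hθe, hs, hh]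
    rw [Nat.cast_sub (show j ≤ N - j by omega), Nat.cast_sub (show j ≤ N by omega)]
    field_simp
    ring
  have hball : ∀ v : ℂ, -θ ≤ v.re → v.re ≤ θ → -y ≤ v.im → v.im ≤ y →
      v ∈ Metric.ball (0 : ℂ) ρ := by
    intro v a1 a2 a3 a4
    rw [Metric.mem_ball, dist_zero_right]
    have := Complex.norm_le_abs_re_add_abs_im v
    have h1 : |v.re| ≤ θ := abs_le.2 ⟨a1, a2⟩
    have h2 : |v.im| ≤ y := abs_le.2 ⟨a3, a4⟩
    linarith
  have hfd : ∀ v ∈ Metric.ball (0 : ℂ) ρ, DifferentiableAt ℂ f v := fun v hv =>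
    hf.differentiableAt (Metric.isOpen_ball.mem_nhds hv)
  have hfd' : ∀ v ∈ Metric.ball (0 : ℂ) ρ, DifferentiableAt ℂ (deriv f) v := fun v hv =>
    (hf.deriv Metric.isOpen_ball).differentiableAt (Metric.isOpen_ball.mem_nhds hv)
  -- the sum
  have hsum := sum_rect (s := s) (h := h) (Y := y) hh0 hy0 (N - j - j) (F := deriv f) (by
    rw [← e0, ← e1]
    exact fun v a b c d => hfd' v (hball v a b c d))
  rw [← e0, ← e1] at hsum
  have hzl : ∀ k : ℕ, zl N (j + k) / N = s + k * h := by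
    intro k
    rw [hs, hh]
    unfold zl
    push_cast
    field_simp
    ring
  have hkb : ∀ k ∈ Finset.range (N - j - j), ((s : ℂ) + k * h) ∈ Metric.ball (0 : ℂ) ρ := by
    intro k hk
    rw [Finset.mem_range] at hk
    have h1 : ((k + 1 : ℕ) : ℝ) ≤ (N - j - j : ℕ) := by exact_mod_cast hk
    push_cast at h1
    have h3 : ((k : ℝ) + 1) * h ≤ (N - j - j : ℕ) * h := mul_le_mul_of_nonneg_right h1 hh0.le
    have h4 : (0 : ℝ) ≤ k * h := by positivity
    have h5 : ((s : ℂ) + k * h) = ((s + k * h : ℝ) : ℂ) := by push_cast; ring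
    rw [h5]
    refine hball _ ?_ ?_ (by simp; linarith) (by simp; linarith)
    · rw [Complex.ofReal_re, e0]
      linarith
    · rw [Complex.ofReal_re, e1]
      linarith
  have hS : ∑ k ∈ Finset.Ico j (N - j), deriv (fun z : ℂ => f (z / N)) (zl N k) =
      1 / N * ∑ k ∈ Finset.range (N - j - j), deriv f (s + k * h) := by
    rw [Finset.sum_Ico_eq_sum_range, Finset.mul_sum]
    refine Finset.sum_congr rfl fun k hk => ?_
    have h1 := (hfd _ (hkb k hk)).hasDerivAt
    rw [← hzl k] at h1 ⊢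
    have h2 : HasDerivAt (fun z : ℂ => z / N) (1 / N) (zl N (j + k)) :=
      (hasDerivAt_id _).div_const _
    have h3 := HasDerivAt.comp (zl N (j + k)) h1 h2
    have h4 : deriv (fun z : ℂ => f (z / N)) (zl N (j + k)) = _ := h3.deriv
    rw [h4]
    ring
  -- the kernel
  have hkz : ∀ v : ℂ, kz N (N * v) = (Real.pi / 2) ^ 2 / sin (ang s h v) ^ 2 := by
    intro v
    have h1 : ang s h v = Real.pi * (N * v - N + 1) / 2 + ((N : ℤ) - j - 1 : ℤ) * Real.pi := by
      unfold ang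
      rw [hs, hh]
      push_cast
      field_simp
      ring
    have h2 := Complex.sin_sq_add_cos_sq ((((N : ℤ) - j - 1 : ℤ) : ℂ) * Real.pi)
    rw [Complex.sin_int_mul_pi] at h2
    have h3 : cos ((((N : ℤ) - j - 1 : ℤ) : ℂ) * Real.pi) ^ 2 = 1 := by
      rw [← h2]; ring
    unfold kz
    rw [h1, sin_shift, mul_pow, h3, one_mul]
  have hsin : ∀ v, OnB (-θ) θ (-y) y v → sin (ang s h v) ≠ 0 := by
    rintro v ⟨a1, a2, a3, a4, a5⟩
    rcases a5 with a5 | a5 | a5 | a5
    · exact sin_ang_ne hh0 (by rw [a5]; exact neg_ne_zero.2 hy0.ne')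
    · exact sin_ang_ne hh0 (by rw [a5]; exact hy0.ne')
    · have h1 := (mid_line (s := s) hh0 0 v.im).1
      have h2 : (((s + (0 : ℤ) * h - h / 2 : ℝ) : ℂ) + v.im * I) = v := by
        rw [Int.cast_zero, zero_mul, add_zero, ← e0, ← a5]
        exact Complex.re_add_im v
      rw [h2] at h1
      exact norm_pos_iff.1 (by rw [h1]; exact Real.cosh_pos _)
    · have h1 := (mid_line (s := s) hh0 ((N - j - j : ℕ) : ℤ) v.im).1
      have h2 : (((s + (((N - j - j : ℕ) : ℤ) : ℝ) * h - h / 2 : ℝ) : ℂ) + v.im * I) = v := by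
        rw [Int.cast_natCast, ← e1, ← a5]
        exact Complex.re_add_im v
      rw [h2] at h1
      exact norm_pos_iff.1 (by rw [h1]; exact Real.cosh_pos _)
  have hbb : ∀ v, OnB (-θ) θ (-y) y v → v ∈ Metric.ball (0 : ℂ) ρ := fun v hv =>
    hball v hv.1 hv.2.1 hv.2.2.1 hv.2.2.2.1
  have hc1 : ∀ v, OnB (-θ) θ (-y) y v → ContinuousAt (fun v => deriv f v * ck s h v) v :=
    fun v hv => (hfd' v (hbb v hv)).continuousAt.mul (cont_ck (hsin v hv))
  have hc2 : ∀ v, OnB (-θ) θ (-y) y v → ContinuousAt (fun v => f v * kz N (N * v)) v := by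
    intro v hv
    simp only [hkz]
    refine (hfd v (hbb v hv)).continuousAt.mul (continuousAt_const.div ?_ (pow_ne_zero 2 (hsin v hv)))
    have h1 := (diff_ang s h v).continuousAt
    have h3 : ContinuousAt (fun v => sin (ang s h v)) v :=
      ContinuousAt.comp Complex.continuous_sin.continuousAt h1
    exact h3.pow 2
  have hparts : rectInt (fun v => deriv f v * ck s h v - (N : ℂ) ^ 2 * (f v * kz N (N * v)))
      (-θ) θ (-y) y = 0 := by
    refine rect_deriv (H := fun v => f v * ck s h v) (by linarith) (by linarith) ?_ ?_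
    · intro v hv
      refine ((hfd v (hbb v hv)).hasDerivAt.mul (hasDerivAt_ck (hsin v hv))).congr_deriv ?_
      rw [hkz]
      have : (Real.pi : ℂ) / h = Real.pi * N / 2 := by
        rw [hh]
        push_cast
        field_simp
      rw [this]
      ring
    · intro v hv
      exact (hc1 v hv).sub (continuousAt_const.mul (hc2 v hv))
  rw [rect_lin _ (by linarith) (by linarith) hc1 hc2, sub_eq_zero] at hparts
  rw [hparts] at hsum
  -- symmetric
  set T0 := ∫ x in (-θ)..θ, f (x + y * I) * kz N (N * (x + y * I)) with hT0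
  set B0 := ∫ x in (-θ)..θ, f (x + (-y : ℝ) * I) * kz N (N * (x + (-y : ℝ) * I)) with hB0
  set R0 := ∫ t in (-y)..y, f (θ + t * I) * kz N (N * (θ + t * I)) with hR0
  set L0 := ∫ t in (-y)..y, f ((-θ : ℝ) + t * I) * kz N (N * ((-θ : ℝ) + t * I)) with hL0
  have hkev : ∀ v : ℂ, kz N (N * (-v)) = kz N (N * v) := by
    intro v
    have h1 : (Real.pi : ℂ) * (N * (-v) - N + 1) / 2 =
        -(Real.pi * (N * v - N + 1) / 2 + ((N : ℤ) - 1 : ℤ) * Real.pi) := by
      push_cast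
      ring
    have h2 := Complex.sin_sq_add_cos_sq ((((N : ℤ) - 1 : ℤ) : ℂ) * Real.pi)
    rw [Complex.sin_int_mul_pi] at h2
    have h3 : cos ((((N : ℤ) - 1 : ℤ) : ℂ) * Real.pi) ^ 2 = 1 := by
      rw [← h2]; ring
    unfold kz
    rw [h1, Complex.sin_neg, sin_shift, neg_sq, mul_pow, h3, one_mul]
  have hBT : B0 = -T0 := by
    rw [hB0, hT0, ← intervalIntegral.integral_neg]
    have h1 := intervalIntegral.integral_comp_neg (a := -θ) (b := θ)
      (fun x : ℝ => f (x + (-y : ℝ) * I) * kz N (N * (x + (-y : ℝ) * I)))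
    rw [neg_neg] at h1
    rw [← h1]
    refine intervalIntegral.integral_congr fun x hx => ?_
    rw [Set.uIcc_of_le (by linarith)] at hx
    have e : ((-x : ℝ) : ℂ) + (-y : ℝ) * I = -((x : ℂ) + y * I) := by push_cast; ring
    rw [e, hkev, hodd _ (hball _ (by simpa using hx.1) (by simpa using hx.2) (by simp; linarith)
      (by simp))]
    ring
  have hrect : rectInt (fun v => f v * kz N (N * v)) (-θ) θ (-y) y =
      B0 - T0 + I * R0 - I * L0 := rfl
  rw [hrect, hBT] at hsum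
  have hfin : ∑ k ∈ Finset.Ico j (N - j), deriv (fun z : ℂ => f (z / N)) (zl N k) - QZ ρ N y f =
      N / (2 * Real.pi) * (R0 - L0) := by
    have hQ : QZ ρ N y f = -(N / (Real.pi * I)) * T0 := rfl
    have hp : (Real.pi : ℂ) ≠ 0 := by exact_mod_cast Real.pi_ne_zero
    have hI := Complex.I_ne_zero
    rw [hS, hQ]
    have h2 : ∑ k ∈ Finset.range (N - j - j), deriv f (s + k * h) =
        (N : ℂ) ^ 2 * (-T0 - T0 + I * R0 - I * L0) / (2 * Real.pi * I) := by
      rw [eq_div_iff (by simp [hp, hI])]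
      linear_combination -hsum
    rw [h2]
    field_simp
    ring
  rw [hfin]
  have hside : ∀ n : ℤ, ∀ X : ℝ, X = s + n * h - h / 2 →
      (∀ t ∈ Set.Icc (-y) y, ‖f (X + t * I)‖ ≤ B) →
      ‖∫ t in (-y)..y, f (X + t * I) * kz N (N * (X + t * I))‖ ≤ 2 * y * B * (Real.pi / 2) ^ 2 := by
    intro n X hX hf2
    have hB0' : 0 ≤ B := (norm_nonneg _).trans (hf2 0 ⟨by linarith, by linarith⟩)
    have := intervalIntegral.norm_integral_le_of_norm_le_const (a := -y) (b := y)
      (C := B * (Real.pi / 2) ^ 2) (f := fun t : ℝ => f (X + t * I) * kz N (N * (X + t * I))) (by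
      intro t ht
      rw [Set.uIoc_of_le (by linarith)] at ht
      rw [norm_mul]
      have h1 := hf2 t ⟨ht.1.le, ht.2⟩
      have h2 := (mid_line (s := s) hh0 n t).1
      rw [← hX] at h2
      have h3 : ‖kz N (N * (X + t * I))‖ ≤ (Real.pi / 2) ^ 2 := by
        rw [hkz, norm_div, norm_pow, norm_pow, h2]
        have h4 : ‖(Real.pi : ℂ) / 2‖ = Real.pi / 2 := by
          rw [norm_div, Complex.norm_real, Real.norm_eq_abs, abs_of_pos Real.pi_pos]
          simp
        rw [h4]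
        refine div_le_self (by positivity) ?_
        exact one_le_pow₀ (Real.one_le_cosh _)
      exact mul_le_mul h1 h3 (norm_nonneg _) hB0')
    refine this.trans (le_of_eq ?_)
    rw [abs_of_pos (by linarith)]
    ring
  have hfR : ∀ t ∈ Set.Icc (-y) y, ‖f ((θ : ℝ) + t * I)‖ ≤ B ∧ ‖f ((-θ : ℝ) + t * I)‖ ≤ B := by
    intro t ht
    rcases le_total 0 t with h0 | h0
    · have := hB t ⟨h0, ht.2⟩
      refine ⟨this.1, ?_⟩
      have e : ((-θ : ℝ) : ℂ) + t * I = -(θ : ℂ) + t * I := by push_cast; ring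
      rw [e]
      exact this.2
    · have := hB (-t) ⟨by linarith, by linarith [ht.1]⟩
      have o1 : f ((θ : ℝ) + t * I) = -f (-((θ : ℝ) + t * I)) := by
        rw [hodd _ (hball _ (by simp; linarith) (by simp) (by simpa using ht.1)
          (by simpa using ht.2)), neg_neg]
      have o2 : f ((-θ : ℝ) + t * I) = -f (-((-θ : ℝ) + t * I)) := by
        rw [hodd _ (hball _ (by simp) (by simp; linarith) (by simpa using ht.1)
          (by simpa using ht.2)), neg_neg]
      constructor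
      · rw [o1, norm_neg]
        have e : -((θ : ℂ) + t * I) = -(θ : ℂ) + (-t : ℝ) * I := by push_cast; ring
        rw [e]
        exact this.2
      · rw [o2, norm_neg]
        have e : -(((-θ : ℝ) : ℂ) + t * I) = (θ : ℂ) + (-t : ℝ) * I := by push_cast; ring
        rw [e]
        exact this.1
  have hR := hside ((N - j - j : ℕ) : ℤ) θ (by rw [Int.cast_natCast]; exact e1) fun t ht => (hfR t ht).1
  have hL := hside 0 (-θ) (by rw [Int.cast_zero, zero_mul, add_zero]; exact e0)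
    fun t ht => (hfR t ht).2
  have hB0' : 0 ≤ B := (norm_nonneg _).trans (hfR 0 ⟨by linarith, by linarith⟩).1
  have hpi := Real.pi_pos
  rw [norm_mul, norm_div, norm_mul, Complex.norm_natCast, Complex.norm_real, Real.norm_eq_abs,
    abs_of_pos hpi]
  have h2n : ‖(2 : ℂ)‖ = 2 := by simp
  rw [h2n]
  have h8 : ‖R0 - L0‖ ≤ 4 * y * B * (Real.pi / 2) ^ 2 := by
    refine (norm_sub_le _ _).trans ((add_le_add hR hL).trans (le_of_eq ?_))
    ring
  calc (N : ℝ) / (2 * Real.pi) * ‖R0 - L0‖ ≤ N / (2 * Real.pi) * (4 * y * B * (Real.pi / 2) ^ 2) := by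
        gcongr
    _ = (y * Real.pi / 2) * (N * B) := by
        field_simp
        ring
    _ ≤ 1 * (N * B) := by
        refine mul_le_mul_of_nonneg_right ?_ (by positivity)
        have := Real.pi_le_four
        nlinarith
    _ = 1 * N * B := by ring

end Q162.KN
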